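import Mathlib

set_option autoImplicit false

namespace Pool.Agent.Results.MP_9df12e_lc.PerfMeager

open Filter Set Topology

/-- `X` (with the subspace topology) is an `S₁(Γ₁, Γ)`-space. -/
def S1G (X : Set ℝ) : Prop := ∀ V : ℕ → ℕ → Set X, (∀ n m, IsOpen (V n m)) →
  (∀ x n, {m | x ∉ V n m}.encard ≤ 1) → ∃ d : ℕ → ℕ, ∀ x, ∀ᶠ n in atTop, x ∈ V n (d n)

theorem disj {P : Set ℝ} (hP : Perfect P) {p : ℝ} (hp : p ∈ P) {B : Set ℝ} (hB : IsOpen B)
    (h : p ∈ B) : ∃ K : ℕ → Set ℝ, (∀ m, IsClosed (K m) ∧ K m ⊆ B ∧ ∃ q ∈ P, K m ∈ 𝓝 q) ∧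
      ∀ x ∈ P, ∀ i j, x ∈ K i → x ∈ K j → i = j := by
  have : Infinite (B ∩ P : Set ℝ) :=
    (Set.Infinite.of_accPt ((hP.acc p hp).nhds_inter (hB.mem_nhds h))).to_subtype
  obtain ⟨U, u1, u2, u3⟩ := exists_seq_infinite_isOpen_pairwise_disjoint (B ∩ P : Set ℝ)
  choose W w1 w2 using fun m => isOpen_induced_iff.1 (u2 m)
  choose q hq using fun m => (u1 m).nonempty
  choose K k1 k2 k3 using fun m => exists_mem_nhds_isClosed_subset
    (((w1 m).inter hB).mem_nhds (⟨by have := hq m; rwa [← w2] at this, (q m).2.1⟩ : (q m).1 ∈ W m ∩ B))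
  refine ⟨K, fun m => ⟨k2 m, fun x hx => (k3 m hx).2, _, (q m).2.2, k1 m⟩,
    fun x hx i j hi hj => by_contra fun e => ?_⟩
  have a1 : (⟨x, (k3 i hi).2, hx⟩ : (B ∩ P : Set ℝ)) ∈ U i := by rw [← w2]; exact (k3 i hi).1
  exact disjoint_left.1 (u3 e) a1 (by rw [← w2]; exact (k3 j hj).1)

theorem result (X : Set ℝ) (h : S1G X) (P : Set ℝ) (hP : Perfect P) (hne : P.Nonempty) :
    IsMeagre {p : P | p.1 ∈ X} := by
  have := hne.to_subtype
  obtain ⟨u, hu⟩ := TopologicalSpace.exists_dense_seq P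
  choose K k1 k2 using fun n : ℕ => disj hP (u n.unpair.1).2
    (Metric.isOpen_ball (x := (u n.unpair.1).1) (ε := 1 / (n.unpair.2 + 1 : ℝ)))
    (Metric.mem_ball_self (by positivity))
  obtain ⟨d, hd⟩ := h (fun n m => {x | x.1 ∉ K n m ∩ P}) (fun n m =>
    ((k1 n m).1.inter hP.closed).isOpen_compl.preimage continuous_subtype_val) fun x n =>
      encard_le_one_iff.2 fun i j hi hj => k2 n x (not_not.1 hi).2 i j (not_not.1 hi).1
        (not_not.1 hj).1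
  refine mem_of_superset (countable_iInter_mem.2 fun N : ℕ => residual_of_dense_open
    (s := ⋃ n ≥ N, Subtype.val ⁻¹' interior (K n (d n))) (isOpen_biUnion fun n _ =>
      isOpen_interior.preimage continuous_subtype_val) ?_) fun p hp e => ?_
  · refine Metric.dense_iff.2 fun p r hr => ?_
    obtain ⟨k, a1, a2⟩ := ((eventually_ge_atTop N).and ((tendsto_one_div_add_atTop_nhds_zero_nat
      (𝕜 := ℝ)).eventually (gt_mem_nhds (half_pos hr)))).exists
    obtain ⟨i, a3⟩ := hu.exists_dist_lt p (half_pos hr)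
    obtain ⟨-, b1, q, b2, b3⟩ := k1 (Nat.pair i k) (d (Nat.pair i k))
    refine ⟨⟨q, b2⟩, ?_, mem_iUnion₂.2 ⟨Nat.pair i k, a1.trans (Nat.right_le_pair i k),
      mem_interior_iff_mem_nhds.2 b3⟩⟩
    have b4 := b1 (mem_of_mem_nhds b3)
    rw [Nat.unpair_pair, Metric.mem_ball] at b4
    have b5 := dist_triangle (⟨q, b2⟩ : P) (u i) p
    rw [dist_comm] at a3
    rw [Metric.mem_ball]
    change dist (⟨q, b2⟩ : P) (u i) < 1 / (k + 1 : ℝ) at b4
    linarith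
  · obtain ⟨N, hN⟩ := eventually_atTop.1 (hd ⟨p.1, e⟩)
    obtain ⟨n, a1, a2⟩ := mem_iUnion₂.1 (mem_iInter.1 hp N)
    exact hN n a1 ⟨interior_subset a2, p.2⟩

end Pool.Agent.Results.MP_9df12e_lc.PerfMeager
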